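import Pool.Agent.Lib.MP_e7fbd4_ag.O.B2
import Pool.Agent.Lib.MP_e7fbd4_ag.O.C4

/-!
# Algebraic, semi-topological and topological K-theory with finite coefficients (definitions)

For an algebra `A` over `ℂ` the elements of `K_{k+2}(A; ℤ/m)` are the homotopy classes of pairs
`(g, p)`, where `g` is a polynomial function on the cube `[0,1]^k` with values in some `GL_r(A)`
and with `g = 1` on the boundary, and `p` is a polynomial path from `1` to `g ⊕ ⋯ ⊕ g` in the group
`GL_r(M_m(A))`. Continuous functions give the semi-topological groups. Topological K-theory is the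
colimit of the latter along the Bott maps.
-/

set_option autoImplicit false

namespace Pool.Agent.Lib.MP_e7fbd4_ag.Q

open Pool.Agent.Lib.MP_c052b4_al O

variable {A : Type} [Ring A] [Algebra ℂ A] {c : Kind} {m k r s : ℕ}

/-- The group `GL_r(A)`. -/
abbrev GLr (r : ℕ) (A : Type) [Ring A] : Type := (Matrix (Fin r) (Fin r) A)ˣ

/-- `G` and `H` are equal in the union `GL(A)` of the groups `GL_r(A)`. -/
def Same (G : GLr r A) (H : GLr s A) : Prop := ∀ i j : ℕ, entM G.val i j = entM H.val i j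

/-- A cube of kind `c` in `GL_r(A)`: the entries of `g` and of `g⁻¹` are functions of kind `c`. -/
def IsCube (c : Kind) (g : Cube k → GLr r A) : Prop :=
  (∀ i j, (fun x => (g x).val i j) ∈ fn c k A) ∧ ∀ i j, (fun x => (g x)⁻¹.val i j) ∈ fn c k A

/-- The boundary conditions: `g = 1` on the boundary of the cube, `p(0, x) = 1`,
`p(1, x) = g(x) ⊕ ⋯ ⊕ g(x)` and `p(s, x) = 1` for `x` on the boundary of the cube. -/
structure Bdry (g : Cube k → GLr r A)
    (p : Cube (k + 1) → GLr r (Matrix (Fin m) (Fin m) A)) : Prop where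
  g_bdry : ∀ x, OnBdry x → g x = 1
  p_zero : ∀ x : Cube k, p (Fin.cons 0 x) = 1
  p_one : ∀ (x : Cube k) i j, (p (Fin.cons 1 x)).val i j = Matrix.scalar (Fin m) ((g x).val i j)
  p_bdry : ∀ (s : unitInterval) (x : Cube k), OnBdry x → p (Fin.cons s x) = 1

/-- The pairs `(g, p)`. -/
structure Pair (c : Kind) (m k : ℕ) (A : Type) [Ring A] [Algebra ℂ A] where
  /-- the size -/
  r : ℕ
  /-- the cube `g` -/
  g : Cube k → GLr r A
  /-- the null-homotopy `p` of `g ⊕ ⋯ ⊕ g` -/
  p : Cube (k + 1) → GLr r (Matrix (Fin m) (Fin m) A)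
  hg : IsCube c g
  hp : IsCube c p
  bdry : Bdry g p

/-- Two pairs are homotopic if (after enlarging the matrices) they are the ends of a family of
kind `c`, all members of which satisfy the boundary conditions. -/
def Homotopic (z w : Pair c m k A) : Prop :=
  ∃ (s : ℕ) (G : Cube (k + 1) → GLr s A) (P : Cube (k + 2) → GLr s (Matrix (Fin m) (Fin m) A)),
    IsCube c G ∧ IsCube c P ∧
    (∀ t : unitInterval, Bdry (fun x => G (Fin.cons t x)) (fun y => P (Fin.cons t y))) ∧
    (∀ x, Same (G (Fin.cons 0 x)) (z.g x) ∧ Same (G (Fin.cons 1 x)) (w.g x)) ∧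
    ∀ y, Same (P (Fin.cons 0 y)) (z.p y) ∧ Same (P (Fin.cons 1 y)) (w.p y)

/-- The group in degree `k + 2`: `K_{k+2}(A; ℤ/m)` for the kind `alg`, `K^st_{k+2}(A; ℤ/m)` for the
kind `top`. -/
def K (c : Kind) (m k : ℕ) (A : Type) [Ring A] [Algebra ℂ A] : Type :=
  Quot (Homotopic (c := c) (m := m) (k := k) (A := A))

theorem IsCube.toTop {g : Cube k → GLr r A} (hg : IsCube Kind.alg g) : IsCube Kind.top g :=
  ⟨fun i j => fn_alg_le_top (hg.1 i j), fun i j => fn_alg_le_top (hg.2 i j)⟩

/-- The polynomial pair `z`, regarded as a continuous pair. -/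
def Pair.toTop (z : Pair Kind.alg m k A) : Pair Kind.top m k A where
  r := z.r
  g := z.g
  p := z.p
  hg := z.hg.toTop
  hp := z.hp.toTop
  bdry := z.bdry

theorem Homotopic.toTop {z w : Pair Kind.alg m k A} (h : Homotopic z w) :
    Homotopic z.toTop w.toTop := by
  obtain ⟨s, G, P, hG, hP, h⟩ := h
  exact ⟨s, G, P, hG.toTop, hP.toTop, h⟩

/-- The comparison map from algebraic to semi-topological K-theory. -/
def toSt (m k : ℕ) (A : Type) [Ring A] [Algebra ℂ A] : K Kind.alg m k A → K Kind.top m k A :=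
  Quot.map Pair.toTop fun _ _ h => h.toTop

/-- `(P ⊗ G + (1 - P) ⊗ 1) (P₀ ⊗ G + (1 - P₀) ⊗ 1)⁻¹`, `P` the Bott projection. -/
noncomputable def bottU (a b : unitInterval) (G : GLr r A) : GLr (r * 2) A :=
  rU finProdFinEquiv (twU (bottP a b) G * (twU bottP₀ G)⁻¹)

/-- The pair `w` is the image of the pair `z` under the Bott map (product with the class
`[P] - [P₀]` of the Bott projection on the square). -/
def IsBott (z : Pair Kind.top m k A) (w : Pair Kind.top m (k + 2) A) : Prop :=
  (∀ y, Same (w.g y) (bottU (y 0) (y 1) (z.g fun i => y i.succ.succ))) ∧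
  ∀ y, Same (w.p y) (bottU (y 1) (y 2) (z.p (Fin.cons (y 0) fun i => y i.succ.succ.succ)))

/-- One step of the colimit defining topological K-theory. -/
def BottStep (m k : ℕ) (A : Type) [Ring A] [Algebra ℂ A] (x y : Σ j : ℕ, K Kind.top m (k + 2 * j) A) :
    Prop :=
  ∃ (j : ℕ) (z : Pair Kind.top m (k + 2 * j) A) (w : Pair Kind.top m (k + 2 * j + 2) A),
    IsBott z w ∧ x = ⟨j, Quot.mk _ z⟩ ∧ y = ⟨j + 1, Quot.mk _ w⟩

/-- Topological K-theory `K^top_{k+2}(A; ℤ/m) = colim_j K^st_{k+2+2j}(A; ℤ/m)`, the colimit along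
the Bott maps. -/
def KTop (m k : ℕ) (A : Type) [Ring A] [Algebra ℂ A] : Type := Quot (BottStep m k A)

/-- The comparison map `K_{k+2}(A; ℤ/m) → K^top_{k+2}(A; ℤ/m)`. -/
def comparison (m k : ℕ) (A : Type) [Ring A] [Algebra ℂ A] (x : K Kind.alg m k A) :
    KTop m k A :=
  Quot.mk _ ⟨0, toSt m k A x⟩

end Pool.Agent.Lib.MP_e7fbd4_ag.Q
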