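import Pool.Agent.Lib.MP_e7fbd4_ag.Mg.G009
import Pool.Agent.Lib.MP_e7fbd4_ag.Mg.G005
import Pool.Agent.Lib.MP_e7fbd4_ag.Q.Defs

/-!
# The groups of `Q/Defs.lean` and those of `O/Off.lean` agree
-/

set_option autoImplicit false
set_option linter.unusedVariables false

namespace Pool.Agent.Lib.MP_e7fbd4_ag.Q

open Pool.Agent.Lib.MP_c052b4_al O

variable {A : Type} [Ring A] [Algebra ℂ A] {c : Kind} {m k r s : ℕ}

theorem same_iff {G : GLr r A} {H : GLr s A} : Same G H ↔ toGL A r G = toGL A s H :=
  ⟨fun h => toGL_eq_of_ent h, fun h => ent_eq_of_toGL h⟩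

theorem toGL_injective (r : ℕ) : Function.Injective (toGL A r) := by
  intro G H h
  exact Units.ext (entM_injective (ent_eq_of_toGL h))

theorem dup_toGL (m : ℕ) (G : GLr r A) (P : GLr r (Matrix (Fin m) (Fin m) A)) :
    toGL (Matrix (Fin m) (Fin m) A) r P = dup m A (toGL A r G) ↔
      ∀ i j, P.val i j = Matrix.scalar (Fin m) (G.val i j) := by
  unfold dup
  rw [map_toGL]
  constructor
  · intro h i j
    have h1 := toGL_injective (A := Matrix (Fin m) (Fin m) A) r h
    rw [h1]
    rfl
  · intro h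
    congr 1
    exact Units.ext (Matrix.ext fun i j => h i j)

theorem bdry_iff {g : Cube k → GLr r A} {p : Cube (k + 1) → GLr r (Matrix (Fin m) (Fin m) A)} :
    Bdry g p ↔ O.Bdry m k (fun x => toGL A r (g x))
      (fun y => toGL (Matrix (Fin m) (Fin m) A) r (p y)) := by
  constructor
  · intro h
    refine ⟨fun x hx => ?_, fun x => ?_, fun x => ?_, fun s x hx => ?_⟩
    · rw [h.g_bdry x hx, map_one]
    · rw [h.p_zero x, map_one]
    · exact (dup_toGL m _ _).2 (h.p_one x)
    · rw [h.p_bdry s x hx, map_one]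
  · intro h
    refine ⟨fun x hx => ?_, fun x => ?_, fun x => ?_, fun s x hx => ?_⟩
    · exact toGL_injective r ((h.g_bdry x hx).trans (map_one _).symm)
    · exact toGL_injective r ((h.p_zero x).trans (map_one _).symm)
    · exact (dup_toGL m _ _).1 (h.p_one x)
    · exact toGL_injective r ((h.p_bdry s x hx).trans (map_one _).symm)

/-- The pair in `GL(A)` defined by a pair in `GL_r(A)`. -/
noncomputable def Pair.up (z : Pair c m k A) : O.Pair c m k A where
  g x := toGL A z.r (z.g x)
  p y := toGL (Matrix (Fin m) (Fin m) A) z.r (z.p y)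
  hg := ⟨z.r, z.g, z.hg.1, z.hg.2, fun _ => rfl⟩
  hp := ⟨z.r, z.p, z.hp.1, z.hp.2, fun _ => rfl⟩
  bdry := bdry_iff.1 z.bdry

theorem opair_ext {z w : O.Pair c m k A} (h1 : z.g = w.g) (h2 : z.p = w.p) : z = w := by
  cases z; cases w; cases h1; cases h2; rfl

theorem up_surjective (z : O.Pair c m k A) : ∃ w : Pair c m k A, w.up = z := by
  obtain ⟨r₀, h₀⟩ := z.hg.exists_rep
  obtain ⟨r₁, h₁⟩ := z.hp.exists_rep
  obtain ⟨G, hG, hG'⟩ := h₀ (max r₀ r₁) (le_max_left _ _)
  obtain ⟨P, hP, hP'⟩ := h₁ (max r₀ r₁) (le_max_right _ _)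
  refine ⟨⟨max r₀ r₁, G, P, hG, hP, bdry_iff.2 ?_⟩, ?_⟩
  · have h1 : (fun x => toGL A (max r₀ r₁) (G x)) = z.g := funext fun x => (hG' x).symm
    have h2 : (fun y => toGL (Matrix (Fin m) (Fin m) A) (max r₀ r₁) (P y)) = z.p :=
      funext fun x => (hP' x).symm
    rw [h1, h2]
    exact z.bdry
  · exact opair_ext (funext fun x => (hG' x).symm) (funext fun x => (hP' x).symm)

theorem homotopic_iff (z w : Pair c m k A) : Homotopic z w ↔ O.Homotopic z.up w.up := by
  constructor
  · rintro ⟨s, G, P, hG, hP, hB, h1, h2⟩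
    refine ⟨fun x => toGL A s (G x), fun y => toGL (Matrix (Fin m) (Fin m) A) s (P y),
      ⟨s, G, hG.1, hG.2, fun _ => rfl⟩, ⟨s, P, hP.1, hP.2, fun _ => rfl⟩,
      fun t => bdry_iff.1 (hB t), fun x => ?_, fun y => ?_, fun x => ?_, fun y => ?_⟩
    · exact same_iff.1 (h1 x).1
    · exact same_iff.1 (h2 y).1
    · exact same_iff.1 (h1 x).2
    · exact same_iff.1 (h2 y).2
  · rintro ⟨G, P, hG, hP, hB, h1, h2, h3, h4⟩
    obtain ⟨r₀, h₀⟩ := hG.exists_rep
    obtain ⟨r₁, h₁⟩ := hP.exists_rep
    obtain ⟨G', hG', hGe⟩ := h₀ (max r₀ r₁) (le_max_left _ _)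
    obtain ⟨P', hP', hPe⟩ := h₁ (max r₀ r₁) (le_max_right _ _)
    refine ⟨max r₀ r₁, G', P', hG', hP', fun t => bdry_iff.2 ?_, fun x => ⟨?_, ?_⟩,
      fun y => ⟨?_, ?_⟩⟩
    · have e1 : (fun x => toGL A (max r₀ r₁) (G' (Fin.cons t x))) =
          fun x => G (Fin.cons t x) := funext fun x => (hGe _).symm
      have e2 : (fun y => toGL (Matrix (Fin m) (Fin m) A) (max r₀ r₁) (P' (Fin.cons t y))) =
          fun y => P (Fin.cons t y) := funext fun x => (hPe _).symm
      rw [e1, e2]
      exact hB t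
    · exact same_iff.2 ((hGe _).symm.trans (h1 x))
    · exact same_iff.2 ((hGe _).symm.trans (h3 x))
    · exact same_iff.2 ((hPe _).symm.trans (h2 y))
    · exact same_iff.2 ((hPe _).symm.trans (h4 y))

/-- a general lemma on quotients -/
theorem quot_bij {α β : Type} {r : α → α → Prop} {s : β → β → Prop} (f : α → β)
    (hf : Function.Surjective f) (hrs : ∀ a b, r a b ↔ s (f a) (f b)) (hs : ∀ b, s b b) :
    Function.Bijective (Quot.map f fun a b h => (hrs a b).1 h : Quot r → Quot s) := by
  classical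
  let g : Quot s → Quot r := Quot.lift (fun b => Quot.mk r (hf b).choose) (by
    intro b b' h
    apply Quot.sound
    rw [hrs, (hf b).choose_spec, (hf b').choose_spec]
    exact h)
  have hg : ∀ x, g (Quot.map f (fun a b h => (hrs a b).1 h) x) = x := by
    intro x
    induction x using Quot.ind with
    | mk a =>
      apply Quot.sound
      rw [hrs, (hf (f a)).choose_spec]
      exact hs _
  constructor
  · exact Function.LeftInverse.injective hg
  · intro y
    induction y using Quot.ind with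
    | mk b =>
      obtain ⟨a, rfl⟩ := hf b
      exact ⟨Quot.mk r a, rfl⟩

/-- a second lemma on quotients -/
theorem quot_bij' {α β : Type} {r : α → α → Prop} {s : β → β → Prop} (f : α → β)
    (hf : Function.Bijective f) (hrs : ∀ a b, r a b ↔ s (f a) (f b)) :
    Function.Bijective (Quot.map f fun a b h => (hrs a b).1 h : Quot r → Quot s) := by
  let e := Equiv.ofBijective f hf
  have h1 : ∀ b, f (e.symm b) = b := e.apply_symm_apply
  have h2 : ∀ a, e.symm (f a) = a := e.symm_apply_apply
  let g : Quot s → Quot r := Quot.map e.symm (by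
    intro b b' h
    rw [hrs, h1, h1]
    exact h)
  have hg : ∀ x, g (Quot.map f (fun a b h => (hrs a b).1 h) x) = x := by
    intro x
    induction x using Quot.ind with
    | mk a => exact congrArg (Quot.mk r) (h2 a)
  constructor
  · exact Function.LeftInverse.injective hg
  · intro y
    induction y using Quot.ind with
    | mk b => exact ⟨Quot.mk r (e.symm b), congrArg (Quot.mk s) (h1 b)⟩

/-- The map from the groups of `Q/Defs.lean` to those of `O/Off.lean`. -/
noncomputable def kUp (c : Kind) (m k : ℕ) (A : Type) [Ring A] [Algebra ℂ A] :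
    K c m k A → KG c m k A :=
  Quot.map Pair.up fun z w h => (homotopic_iff z w).1 h

theorem kUp_bij (c : Kind) (m k : ℕ) (A : Type) [Ring A] [Algebra ℂ A] :
    Function.Bijective (kUp c m k A) :=
  quot_bij Pair.up up_surjective homotopic_iff homotopic_refl

theorem kUp_toSt (m k : ℕ) (A : Type) [Ring A] [Algebra ℂ A] (x : K Kind.alg m k A) :
    kUp Kind.top m k A (toSt m k A x) = O.toSt m k A (kUp Kind.alg m k A x) := by
  induction x using Quot.ind with
  | mk z => rfl

theorem toGL_bottU (a b : unitInterval) (G : GLr r A) :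
    toGL A (r * 2) (bottU a b G) = bottVal a b (toGL A r G) := by
  have h1 : rU finProdFinEquiv ((twU bottP₀ G)⁻¹) = (rU finProdFinEquiv (twU bottP₀ G))⁻¹ := rfl
  unfold bottU bottVal
  rw [rU_mul, map_mul, h1, map_inv, twist_toGL, twist_toGL]

theorem isBott_iff (z : Pair Kind.top m k A) (w : Pair Kind.top m (k + 2) A) :
    IsBott z w ↔ w.up = z.up.bott := by
  constructor
  · rintro ⟨h1, h2⟩
    refine opair_ext (funext fun y => ?_) (funext fun y => ?_)
    · have h3 := same_iff.1 (h1 y)
      rw [toGL_bottU] at h3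
      exact h3
    · have h3 := same_iff.1 (h2 y)
      rw [toGL_bottU] at h3
      exact h3
  · intro h
    refine ⟨fun y => same_iff.2 ?_, fun y => same_iff.2 ?_⟩
    · rw [toGL_bottU]
      exact congrFun (congrArg O.Pair.g h) y
    · rw [toGL_bottU]
      exact congrFun (congrArg O.Pair.p h) y

/-- the map on the sums -/
noncomputable def sUp (m k : ℕ) (A : Type) [Ring A] [Algebra ℂ A] :
    (Σ j : ℕ, K Kind.top m (k + 2 * j) A) → Σ j : ℕ, KG Kind.top m (k + 2 * j) A :=
  Sigma.map id fun j => kUp Kind.top m (k + 2 * j) A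

theorem sUp_bij (m k : ℕ) (A : Type) [Ring A] [Algebra ℂ A] : Function.Bijective (sUp m k A) := by
  constructor
  · exact Function.Injective.sigma_map Function.injective_id fun j => (kUp_bij _ _ _ _).1
  · rintro ⟨j, y⟩
    obtain ⟨x, rfl⟩ := (kUp_bij Kind.top m (k + 2 * j) A).2 y
    exact ⟨⟨j, x⟩, rfl⟩

theorem bottStep_iff (x y : Σ j : ℕ, K Kind.top m (k + 2 * j) A) :
    BottStep m k A x y ↔ O.BottStep m k A (sUp m k A x) (sUp m k A y) := by
  constructor
  · rintro ⟨j, z, w, h, rfl, rfl⟩
    refine ⟨j, kUp Kind.top m (k + 2 * j) A (Quot.mk _ z), rfl, ?_⟩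
    have h1 : kUp Kind.top m (k + 2 * j + 2) A (Quot.mk _ w) =
        O.bott m (k + 2 * j) A (kUp Kind.top m (k + 2 * j) A (Quot.mk _ z)) := by
      change Quot.mk _ w.up = Quot.mk _ z.up.bott
      rw [(isBott_iff z w).1 h]
    exact congrArg (Sigma.mk (β := fun j => KG Kind.top m (k + 2 * j) A) (j + 1)) h1
  · rintro ⟨j, ζ, h1, h2⟩
    obtain ⟨x', rfl⟩ := (kUp_bij Kind.top m (k + 2 * j) A).2 ζ
    have h3 : x = ⟨j, x'⟩ := (sUp_bij m k A).1 h1
    induction x' using Quot.ind with
    | mk z =>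
      obtain ⟨w, hw⟩ := up_surjective z.up.bott
      refine ⟨j, z, w, (isBott_iff z w).2 hw, h3, ?_⟩
      apply (sUp_bij m k A).1
      rw [h2]
      have h4 : kUp Kind.top m (k + 2 * j + 2) A (Quot.mk _ w) =
          O.bott m (k + 2 * j) A (kUp Kind.top m (k + 2 * j) A (Quot.mk _ z)) := by
        change Quot.mk _ w.up = Quot.mk _ z.up.bott
        rw [hw]
      exact (congrArg (Sigma.mk (β := fun j => KG Kind.top m (k + 2 * j) A) (j + 1)) h4).symm

/-- The map on topological K-theory. -/
noncomputable def tUp (m k : ℕ) (A : Type) [Ring A] [Algebra ℂ A] : KTop m k A → O.KTop m k A :=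
  Quot.map (sUp m k A) fun x y h => (bottStep_iff x y).1 h

theorem tUp_bij (m k : ℕ) (A : Type) [Ring A] [Algebra ℂ A] : Function.Bijective (tUp m k A) :=
  quot_bij' (sUp m k A) (sUp_bij m k A) bottStep_iff

theorem tUp_comparison (m k : ℕ) (A : Type) [Ring A] [Algebra ℂ A] (x : K Kind.alg m k A) :
    tUp m k A (comparison m k A x) = O.comparison m k A (kUp Kind.alg m k A x) := by
  change Quot.mk _ (sUp m k A ⟨0, toSt m k A x⟩) = Quot.mk _ _
  have h := kUp_toSt m k A x
  exact congrArg (fun y => Quot.mk _ (⟨0, y⟩ : Σ j : ℕ, KG Kind.top m (k + 2 * j) A)) h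

/-- The comparison map of `Q/Defs.lean` is bijective if and only if that of `O/Off.lean` is. -/
theorem comparison_bij_iff (m k : ℕ) (A : Type) [Ring A] [Algebra ℂ A] :
    Function.Bijective (comparison m k A) ↔ Function.Bijective (O.comparison m k A) := by
  have h : tUp m k A ∘ comparison m k A = O.comparison m k A ∘ kUp Kind.alg m k A :=
    funext fun x => tUp_comparison m k A x
  constructor
  · intro h1
    have h2 : Function.Bijective (O.comparison m k A ∘ kUp Kind.alg m k A) := by
      rw [← h]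
      exact (tUp_bij m k A).comp h1
    exact (Function.Bijective.of_comp_iff _ (kUp_bij Kind.alg m k A)).1 h2
  · intro h1
    have h2 : Function.Bijective (tUp m k A ∘ comparison m k A) := by
      rw [h]
      exact h1.comp (kUp_bij Kind.alg m k A)
    exact (Function.Bijective.of_comp_iff' (tUp_bij m k A) _).1 h2

end Pool.Agent.Lib.MP_e7fbd4_ag.Q
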